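import Pool.Agent.Q275.ZM.Fin

set_option autoImplicit false

/-! # Monotonicity in the order of the derivative of the maxima of zeta on `Re s = 1`

The question is answered affirmatively: there is `T₀` such that for all `T ≥ T₀` and all positive
integers `l₁ < l₂ ≤ log T / log log T` one has `M_{l₁}(T) < M_{l₂}(T)`. -/

namespace Pool.Agent.Results.MP_fcf965_nt.MonotoneOrder

/-- `Mz l T` is the maximum of the absolute value of the `l`-th derivative of the Riemann zeta function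
at the points `1 + i t`, `T ≤ t ≤ 2 T` (the first part of `result` says that it is attained). -/
noncomputable def Mz (l : ℕ) (T : ℝ) : ℝ :=
  sSup ((fun t : ℝ => ‖iteratedDeriv l riemannZeta (1 + t * Complex.I)‖) '' Set.Icc T (2 * T))

theorem point_eq (t : ℝ) : (1 + t * Complex.I : ℂ) = ⟨1, t⟩ := by
  apply Complex.ext <;> simp

theorem Mz_eq (l : ℕ) (T : ℝ) : Mz l T = Q241.MZ.M l 1 T := by
  unfold Mz Q241.MZ.M
  simp only [point_eq]

theorem result :
    (∀ (l : ℕ) (T : ℝ), 0 < T →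
      IsGreatest ((fun t : ℝ => ‖iteratedDeriv l riemannZeta (1 + t * Complex.I)‖) '' Set.Icc T (2 * T)) (Mz l T)) ∧
    ∃ T₀ : ℝ, ∀ T : ℝ, T₀ ≤ T → ∀ l₁ l₂ : ℕ, 0 < l₁ → l₁ < l₂ → (l₂ : ℝ) ≤ Real.log T / Real.log (Real.log T) →
      Mz l₁ T < Mz l₂ T := by
  constructor
  · intro l T hT
    rw [Mz_eq]
    simp only [point_eq]
    exact Q241.MZ.isGreatest_M l 1 hT
  · obtain ⟨T₀, h⟩ := Pool.Agent.Q275.ZM.main
    refine ⟨T₀, ?_⟩
    intro T hT l₁ l₂ h1 h2 h3
    rw [Mz_eq, Mz_eq]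
    exact h T hT l₁ l₂ h1 h2 h3

end Pool.Agent.Results.MP_fcf965_nt.MonotoneOrder
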